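import Mathlib
import Pool.Agent.Cod2.Reduce2

set_option autoImplicit false

/-!
Qian's question on element orders and character codegrees: let `G` be a finite group, `g ∈ G`, `p` a prime and `k` a divisor
of the order of `g` such that `q²` divides `k` only for `q = p` and for primes `q` whose Sylow subgroups are abelian.
Then `k` divides the codegree of some irreducible character of `G` whose kernel meets the group generated by `g` trivially.

Codegrees are written multiplicatively: `k * χ(1) * |ker χ|` divides `|G|`, where `d = χ(1)`.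
-/

namespace Pool.Agent.Results.MP_213332_al.AbelianSylow

open Pool.Agent.Codeg Pool.Agent.Cod2

universe u

/-- **Main result.** Let `g` be an element of a finite group `G` and let `k` be a divisor of the order of `g`. Suppose that
for every prime `q` with `q²` dividing `k`, with at most one exception `q = p`, the Sylow `q`-subgroups of `G` are abelian.
Then there is an irreducible complex character `χ` of `G` whose kernel meets `⟨g⟩` trivially such that
`k * χ(1) * |ker χ|` divides `|G|`, that is, `k` divides the codegree of `χ`. -/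
theorem result (G : Type u) [Group G] [Finite G] (g : G) (k p : ℕ) (hk : k ∣ orderOf g)
    (hkp : ∀ q : ℕ, q.Prime → q ≠ p → q ^ 2 ∣ k →
      ∀ Q : Sylow q G, ∀ a ∈ Q, ∀ b ∈ Q, a * b = b * a) :
    ∃ (d : ℕ) (ρ : Representation ℂ G (Fin d → ℂ)), ρ.IsIrreducible ∧
      (∀ j : ℤ, ρ.character (g ^ j) = ρ.character 1 → g ^ j = 1) ∧
      k * d * Nat.card {h : G // ρ.character h = ρ.character 1} ∣ Nat.card G := by
  have hm0 : orderOf g ≠ 0 := (orderOf_pos g).ne'
  obtain ⟨p₀, a, n, hp₀, hn, hpn, hab, hkm, hmm, hall⟩ := exists_form2 (AbSyl G) hm0 hk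
    (fun q hq hne h2 => absyl_of_sylow hq default (hkp q hq hne h2 default))
  obtain ⟨c, hc⟩ := hmm
  have hpos : 0 < p₀ ^ a * n := Nat.mul_pos (pow_pos hp₀.pos a) hn
  have hc0 : c ≠ 0 := by
    rintro rfl
    exact hm0 (by rw [hc, mul_zero])
  have hg' : orderOf (g ^ c) = p₀ ^ a * n := by
    rw [orderOf_pow_of_dvd hc0 (Dvd.intro_left _ hc.symm), hc,
      Nat.mul_div_cancel _ (Nat.pos_of_ne_zero hc0)]
  obtain ⟨N, d, ρ, hNg, hirr, hker, hdvd⟩ := result_all2 hp₀ hn hpn (g ^ c) hg' hab
  refine ⟨d, ρ, hirr, ?_, ?_⟩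
  · intro j hj
    by_contra hne
    have hjN : g ^ j ∈ N := (hker _).1 hj
    obtain ⟨i, hi⟩ := mem_powers_iff_mem_zpowers.2 (⟨j, rfl⟩ : g ^ j ∈ Subgroup.zpowers g)
    have hi' : g ^ i = g ^ j := hi
    rw [← hi'] at hjN hne
    obtain ⟨r, hr, hrm, hrN⟩ := exists_prime_pow_mem rfl N i hjN hne
    obtain ⟨b, hb⟩ := hall r hr hrm
    have h1 : orderOf g / r = c * b := by
      apply Nat.div_eq_of_eq_mul_left hr.pos
      rw [hc, hb]
      ring
    have h2 : g ^ (orderOf g / r) ∈ N ⊓ Subgroup.zpowers (g ^ c) := by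
      refine ⟨hrN, ?_⟩
      rw [h1, pow_mul]
      exact Subgroup.npow_mem_zpowers (g ^ c) b
    rw [hNg, Subgroup.mem_bot] at h2
    have h3 := Nat.le_of_dvd (Nat.div_pos (Nat.le_of_dvd (Nat.pos_of_ne_zero hm0) hrm) hr.pos)
      (orderOf_dvd_of_pow_eq_one h2)
    exact absurd h3 (not_le_of_gt (Nat.div_lt_self (Nat.pos_of_ne_zero hm0) hr.one_lt))
  · have h1 : Nat.card {h : G // ρ.character h = ρ.character 1} = Nat.card N :=
      Nat.card_congr (Equiv.subtypeEquivRight hker)
    rw [h1]
    exact (Nat.mul_dvd_mul_right (Nat.mul_dvd_mul_right hkm d) _).trans hdvd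

end Pool.Agent.Results.MP_213332_al.AbelianSylow
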