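import Mathlib
import Pool.Agent.Codeg.Reduce
import Pool.Agent.Cod4.Relc
import Pool.Agent.Cod4.CycM

set_option autoImplicit false

/-!
Qian's question on element orders and character codegrees: let `G` be a finite group and `g ∈ G` an element of order `m`.
Suppose that `G` has a subnormal series such that each factor `S` satisfies, for all prime divisors `q` of `m` with at most
one exception (depending on the factor), one of the following conditions:
(a) the Sylow `q`-subgroups of `S` are cyclic;
(b) `q²` does not divide `m`, or the Sylow `q`-subgroups of `S` are abelian, or they have exponent `q`; and `q` does not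
divide the order of the Schur multiplier of any nonabelian simple section of `S`.
Then `m` divides the codegree of an irreducible character whose kernel meets the group generated by `g` trivially.

Codegrees are written multiplicatively: `m * χ(1) * |ker χ|` divides `|G|`, where `d = χ(1)`.

The definitions used in the statement (Pool/Agent/Cod4/Defs.lean):
* `Sec T S`: there are a subgroup `U` of `S` and a surjective homomorphism from `U` to `T`;
* `MulFree q T`: for every finite group `E` and every surjective homomorphism `π : E → T` with central kernel, `q` does not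
  divide the order of `⁅E, E⁆ ⊓ ker π` (that is, `q` does not divide the order of the Schur multiplier of `T`);
* `SecFree q S`: `MulFree q T` holds for every nonabelian simple section `T` of `S`.
-/

namespace Pool.Agent.Results.MP_213332_al.FactorSylow

open Pool.Agent.Codeg Pool.Agent.QianT Pool.Agent.Cod3 Pool.Agent.Cod4

universe u

/-- the reduction to the relative statement -/
theorem result_pos {G : Type u} [Group G] [Finite G] (g : G)
    (hgood : GoodC (orderOf g) (⊥ : Subgroup G)) :
    ∃ (N : Subgroup G) (d : ℕ) (ρ : Representation ℂ G (Fin d → ℂ)),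
      N ⊓ Subgroup.zpowers g = ⊥ ∧ ρ.IsIrreducible ∧
      (∀ h : G, ρ.character h = ρ.character 1 ↔ h ∈ N) ∧
      orderOf g * d * Nat.card N ∣ Nat.card G := by
  classical
  obtain ⟨N, hN, hNg, hmax⟩ := exists_max_normal g
  have hbot : ∀ x : G, x ∈ N → x ∈ Subgroup.zpowers g → x = 1 := by
    intro x h1 h2
    have : x ∈ N ⊓ Subgroup.zpowers g := ⟨h1, h2⟩
    rw [hNg] at this
    exact Subgroup.mem_bot.1 this
  set π := QuotientGroup.mk' N with hπ
  have hsurj : Function.Surjective π := QuotientGroup.mk'_surjective N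
  have hgQ : orderOf (π g) = orderOf g := by
    apply Nat.dvd_antisymm
    · exact orderOf_map_dvd π g
    · apply orderOf_dvd_of_pow_eq_one
      apply hbot
      · have h1 : π (g ^ orderOf (π g)) = 1 := by rw [map_pow, pow_orderOf_eq_one]
        exact (QuotientGroup.eq_one_iff _).1 h1
      · exact Subgroup.npow_mem_zpowers g _
  have hm0 : 0 < orderOf g := orderOf_pos g
  have H : ∀ N' : Subgroup (G ⧸ N), N'.Normal → N' ≠ ⊥ → ∃ r : ℕ, r.Prime ∧
      r ∣ orderOf g ∧ (π g) ^ (orderOf g / r) ∈ N' := by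
    intro N' hN' hne
    have hlt : N < N'.comap π := by
      rw [lt_iff_le_and_ne]
      constructor
      · intro x hx
        rw [Subgroup.mem_comap]
        have : π x = 1 := (QuotientGroup.eq_one_iff _).2 hx
        rw [this]
        exact N'.one_mem
      · intro heq
        apply hne
        rw [Subgroup.eq_bot_iff_forall]
        intro y hy
        obtain ⟨x, rfl⟩ := hsurj y
        have : x ∈ N := by
          rw [heq]
          exact hy
        exact (QuotientGroup.eq_one_iff _).2 this
    have h1 := hmax _ (hN'.comap π) hlt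
    obtain ⟨⟨x, hx⟩, hx0⟩ := Subgroup.ne_bot_iff_exists_ne_one.1 h1
    have hx1 : x ≠ 1 := fun h => hx0 (Subtype.ext h)
    obtain ⟨k, hk⟩ := mem_powers_iff_mem_zpowers.2 hx.2
    have hk' : g ^ k = x := hk
    subst hk'
    obtain ⟨r, hr, hrm, hr2⟩ := exists_prime_pow_mem rfl (N'.comap π) k hx.1 hx1
    refine ⟨r, hr, hrm, ?_⟩
    rw [← map_pow]
    exact hr2
  have : Fintype (G ⧸ N) := Fintype.ofFinite _
  obtain ⟨D⟩ := exists_WD (G ⧸ N)
  -- the relative statement for the trivial subgroup
  have hgood' : GoodC (orderOf g) (⊥ : Subgroup (G ⧸ N)) := by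
    have h1 := goodC_map π hsurj hgood
    rwa [Subgroup.map_bot] at h1
  have hcy : ∀ n : ℕ, (π g) ^ n ∈ (⊥ : Subgroup (G ⧸ N)) ↔ orderOf g ∣ n := by
    intro n
    rw [Subgroup.mem_bot, ← orderOf_dvd_iff_pow_eq_one, hgQ]
  have hRZ : RZ (⊥ : Subgroup (G ⧸ N)) (π g) (orderOf g).primeFactors
      (fun r => (π g) ^ (orderOf g / r)) := by
    intro r hr
    obtain ⟨hrp, hrm, -⟩ := Nat.mem_primeFactors.1 hr
    refine ⟨hrp, ⟨orderOf g / r, 1, Subgroup.one_mem _, by rw [mul_one]⟩, ?_, ?_⟩
    · rw [hcy]
      intro h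
      exact absurd (Nat.le_of_dvd (Nat.div_pos (Nat.le_of_dvd hm0 hrm) hrp.pos) h)
        (not_le_of_gt (Nat.div_lt_self hm0 hrp.one_lt))
    · show ((π g) ^ (orderOf g / r)) ^ r ∈ (⊥ : Subgroup (G ⧸ N))
      rw [← pow_mul, hcy, Nat.div_mul_cancel hrm]
  obtain ⟨i, -, hdvd, hir⟩ := relC (⊥ : Subgroup (G ⧸ N)).index (G ⧸ N) ⊥ bot_le le_rfl D 1 (π g)
    (orderOf g) (orderOf g).primeFactors (fun r => (π g) ^ (orderOf g / r)) hm0 hcy hgood' hRZ
  have hcardbot : Nat.card (⊥ : Subgroup (G ⧸ N)) = 1 := Subgroup.card_bot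
  rw [hcardbot, mul_one] at hdvd
  -- the representation is faithful
  have hinj : ∀ y : G ⧸ N, D.rep i y = 1 → y = 1 := by
    intro y hy
    let KK : Subgroup (G ⧸ N) := (D.rep i).toHomUnits.ker
    have hKK : ∀ x : G ⧸ N, x ∈ KK ↔ D.rep i x = 1 := by
      intro x
      rw [MonoidHom.mem_ker, Units.ext_iff, MonoidHom.coe_toHomUnits, Units.val_one]
    have hKbot : KK = ⊥ := by
      by_contra hne
      obtain ⟨r, hr, hrm, hrK⟩ := H KK inferInstance hne
      have h1 : r ∈ (orderOf g).primeFactors := Nat.mem_primeFactors.2 ⟨hr, hrm, hm0.ne'⟩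
      apply hir r h1
      show (D.rep i ((π g) ^ (orderOf g / r))).trace = D.d i
      rw [(hKK _).1 hrK, Matrix.trace_one, Fintype.card_fin]
    have h2 : y ∈ KK := (hKK y).2 hy
    rw [hKbot] at h2
    exact Subgroup.mem_bot.1 h2
  obtain ⟨ρ, hirr, hker⟩ := exists_irr π hsurj D i
  have hker2 : ∀ h : G, ρ.character h = ρ.character 1 ↔ h ∈ N := by
    intro h
    rw [hker h]
    constructor
    · intro h1
      exact (QuotientGroup.eq_one_iff _).1 (hinj _ h1)
    · intro h1
      have : π h = 1 := (QuotientGroup.eq_one_iff _).2 h1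
      rw [this, map_one]
  refine ⟨N, D.d i, ρ, hNg, hirr, hker2, ?_⟩
  rw [Subgroup.card_eq_card_quotient_mul_card_subgroup N]
  exact Nat.mul_dvd_mul_right hdvd _

/-- **Main result.** Let `g` be an element of order `m` of a finite group `G`, and let
`1 = H 0 ≤ H 1 ≤ ... ≤ H n = G` be a subnormal series with factors `H (i + 1) / H i` isomorphic to `S i`. Suppose that for
every `i < n` there is `p` such that for every prime divisor `q ≠ p` of `m` either the Sylow `q`-subgroups of `S i` are
cyclic, or [`q²` does not divide `m`, or they are abelian, or of exponent `q`] and `q` does not divide the order of the Schur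
multiplier of any nonabelian simple section of `S i`. Then there is an irreducible complex character `χ` of `G` whose kernel meets `⟨g⟩` trivially such
that `m * χ(1) * |ker χ|` divides `|G|`, that is, `m` divides the codegree of `χ`. -/
theorem result (G : Type u) [Group G] [Finite G] (g : G) (n : ℕ) (H : ℕ → Subgroup G)
    (S : ℕ → Type u) [∀ i, Group (S i)] (f : ∀ i, H (i + 1) →* S i)
    (hH0 : H 0 = ⊥) (hHn : H n = ⊤) (hle : ∀ i < n, H i ≤ H (i + 1))
    (hf : ∀ i < n, Function.Surjective (f i))
    (hker : ∀ i < n, (f i).ker = (H i).subgroupOf (H (i + 1)))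
    (hgood : ∀ i < n, ∃ p : ℕ, ∀ q : ℕ, q.Prime → q ∣ orderOf g → q ≠ p →
      (∀ P : Sylow q (S i), IsCyclic P) ∨
      ((¬ q ^ 2 ∣ orderOf g ∨ (∀ P : Sylow q (S i), ∀ a ∈ P, ∀ b ∈ P, a * b = b * a) ∨
        (∀ P : Sylow q (S i), ∀ a ∈ P, a ^ q = 1)) ∧ SecFree q (S i))) :
    ∃ (d : ℕ) (ρ : Representation ℂ G (Fin d → ℂ)), ρ.IsIrreducible ∧
      (∀ j : ℤ, ρ.character (g ^ j) = ρ.character 1 → g ^ j = 1) ∧
      orderOf g * d * Nat.card {h : G // ρ.character h = ρ.character 1} ∣ Nat.card G := by
  classical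
  have hgood : GoodC (orderOf g) (⊥ : Subgroup G) := by
    refine ⟨n, H, hH0, hHn, hle, fun i hi => ?_⟩
    have : Finite (S i) := Finite.of_surjective (f i) (hf i hi)
    refine ⟨S i, inferInstance, this, f i, hker i hi, ?_⟩
    obtain ⟨p, hp⟩ := hgood i hi
    refine ⟨p, fun q hq hqm hqp => ?_⟩
    have : Fact q.Prime := ⟨hq⟩
    rcases hp q hq hqm hqp with h | ⟨h | h | h, hs⟩
    · exact ⟨(cyc_free hq h).1, fun _ => (cyc_free hq h).2⟩
    · exact ⟨hs, fun h2 => absurd h2 h⟩
    · exact ⟨hs, fun _ => Or.inl (Pool.Agent.Cod2.absyl_of_sylow hq default (h _))⟩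
    · refine ⟨hs, fun _ => Or.inr fun x hx => ?_⟩
      have hpg : IsPGroup q (Subgroup.zpowers x) := by
        rw [IsPGroup.iff_orderOf]
        rintro ⟨y, k, rfl⟩
        have h1 : (x ^ k) ^ q ^ 2 = 1 := by
          show (x ^ k) ^ q ^ 2 = 1
          rw [← zpow_natCast, ← zpow_mul, mul_comm, zpow_mul, zpow_natCast, hx, one_zpow]
        have h2 : orderOf (x ^ k) ∣ q ^ 2 := orderOf_dvd_of_pow_eq_one h1
        obtain ⟨l, _, hl⟩ := (Nat.dvd_prime_pow hq).1 h2
        refine ⟨l, ?_⟩
        rw [← hl]
        exact Subgroup.orderOf_mk _ _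
      obtain ⟨P, hP⟩ := hpg.exists_le_sylow
      exact h P x (hP (Subgroup.mem_zpowers x))
  obtain ⟨N, d, ρ, hNg, hirr, hker, hdvd⟩ := result_pos g hgood
  refine ⟨d, ρ, hirr, ?_, ?_⟩
  · intro j hj
    have h1 : g ^ j ∈ N ⊓ Subgroup.zpowers g := ⟨(hker _).1 hj, j, rfl⟩
    rw [hNg] at h1
    exact Subgroup.mem_bot.1 h1
  · have h1 : Nat.card {h : G // ρ.character h = ρ.character 1} = Nat.card N :=
      Nat.card_congr (Equiv.subtypeEquivRight hker)
    rw [h1]
    exact hdvd

end Pool.Agent.Results.MP_213332_al.FactorSylow
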