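import Mathlib
import Pool.Agent.Codeg.Reduce
import Pool.Agent.QianT.Core

set_option autoImplicit false

/-!
Qian's question on element orders and character codegrees, for element orders with at most two
prime divisors, one of them with exponent at most two: if a finite group `G` has an element `x` of
order `m = p ^ a * q ^ b` with `b ≤ 2`, then `m` divides the codegree of an irreducible character
whose kernel meets the group generated by `x` trivially.

Codegrees are written multiplicatively: `m * χ(1) * |ker χ|` divides `|G|`, where `d = χ(1)`.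
-/

namespace Pool.Agent.Results.MP_213332_al.TwoPrimes

open Pool.Agent.Codeg Pool.Agent.QianT

universe u

/-- the reduction to the core statement -/
theorem result_pos2 {G : Type u} [Group G] [Finite G] {p q a : ℕ} (hp : p.Prime) (hq : q.Prime)
    (hpq : p ≠ q) (g : G) (hg : orderOf g = p ^ (a + 1) * q ^ 2) :
    ∃ (N : Subgroup G) (d : ℕ) (ρ : Representation ℂ G (Fin d → ℂ)),
      N ⊓ Subgroup.zpowers g = ⊥ ∧ ρ.IsIrreducible ∧
      (∀ h : G, ρ.character h = ρ.character 1 ↔ h ∈ N) ∧
      p ^ (a + 1) * q ^ 2 * d * Nat.card N ∣ Nat.card G := by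
  classical
  obtain ⟨N, hN, hNg, hmax⟩ := exists_max_normal g
  have hbot : ∀ x : G, x ∈ N → x ∈ Subgroup.zpowers g → x = 1 := by
    intro x h1 h2
    have : x ∈ N ⊓ Subgroup.zpowers g := ⟨h1, h2⟩
    rw [hNg] at this
    exact Subgroup.mem_bot.1 this
  set π := QuotientGroup.mk' N with hπ
  have hsurj : Function.Surjective π := QuotientGroup.mk'_surjective N
  have hgQ : orderOf (π g) = p ^ (a + 1) * q ^ 2 := by
    rw [← hg]
    apply Nat.dvd_antisymm
    · exact orderOf_map_dvd π g
    · apply orderOf_dvd_of_pow_eq_one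
      apply hbot
      · have h1 : π (g ^ orderOf (π g)) = 1 := by rw [map_pow, pow_orderOf_eq_one]
        exact (QuotientGroup.eq_one_iff _).1 h1
      · exact Subgroup.npow_mem_zpowers g _
  have H : ∀ N' : Subgroup (G ⧸ N), N'.Normal → N' ≠ ⊥ → ∃ r : ℕ, r.Prime ∧
      r ∣ p ^ (a + 1) * q ^ 2 ∧ (π g) ^ (p ^ (a + 1) * q ^ 2 / r) ∈ N' := by
    intro N' hN' hne
    have hlt : N < N'.comap π := by
      rw [lt_iff_le_and_ne]
      constructor
      · intro x hx
        rw [Subgroup.mem_comap]
        have : π x = 1 := (QuotientGroup.eq_one_iff _).2 hx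
        rw [this]
        exact N'.one_mem
      · intro heq
        apply hne
        rw [Subgroup.eq_bot_iff_forall]
        intro y hy
        obtain ⟨x, rfl⟩ := hsurj y
        have : x ∈ N := by
          rw [heq]
          exact hy
        exact (QuotientGroup.eq_one_iff _).2 this
    have h1 := hmax _ (hN'.comap π) hlt
    obtain ⟨⟨x, hx⟩, hx0⟩ := Subgroup.ne_bot_iff_exists_ne_one.1 h1
    have hx1 : x ≠ 1 := fun h => hx0 (Subtype.ext h)
    obtain ⟨k, hk⟩ := mem_powers_iff_mem_zpowers.2 hx.2
    have hk' : g ^ k = x := hk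
    subst hk'
    obtain ⟨r, hr, hrm, hr2⟩ := exists_prime_pow_mem hg (N'.comap π) k hx.1 hx1
    refine ⟨r, hr, hrm, ?_⟩
    rw [← map_pow]
    exact hr2
  obtain ⟨D⟩ := exists_WD (G ⧸ N)
  have : Fintype (G ⧸ N) := Fintype.ofFinite _
  obtain ⟨i, hinj, hdvd⟩ := core2 D hp hq hpq (π g) hgQ H
  obtain ⟨ρ, hirr, hker⟩ := exists_irr π hsurj D i
  have hker2 : ∀ h : G, ρ.character h = ρ.character 1 ↔ h ∈ N := by
    intro h
    rw [hker h]
    constructor
    · intro h1
      have : D.rep i (π h) = D.rep i 1 := by rw [h1, map_one]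
      exact (QuotientGroup.eq_one_iff _).1 (hinj this)
    · intro h1
      have : π h = 1 := (QuotientGroup.eq_one_iff _).2 h1
      rw [this, map_one]
  refine ⟨N, D.d i, ρ, hNg, hirr, hker2, ?_⟩
  rw [Subgroup.card_eq_card_quotient_mul_card_subgroup N]
  apply Nat.mul_dvd_mul_right
  obtain ⟨c, hc⟩ := deg_dvd D i
  rw [hc] at hdvd ⊢
  rw [Nat.mul_div_cancel_left _ (D.hd i)] at hdvd
  rw [mul_comm]
  exact Nat.mul_dvd_mul_left _ hdvd

/-- **Main result.** Let `x` be an element of a finite group `G` of order `p ^ a * q ^ b`, where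
`p`, `q` are primes and `b ≤ 2`. Then there is an irreducible complex character `χ` of `G` whose
kernel meets `⟨x⟩` trivially such that `|x| * χ(1) * |ker χ|` divides `|G|`, that is, the order of
`x` divides the codegree of `χ`. -/
theorem result (G : Type u) [Group G] [Finite G] (x : G) (p q a b : ℕ) (hp : p.Prime)
    (hq : q.Prime) (hb : b ≤ 2) (hx : orderOf x = p ^ a * q ^ b) :
    ∃ (d : ℕ) (ρ : Representation ℂ G (Fin d → ℂ)), ρ.IsIrreducible ∧
      (∀ j : ℤ, ρ.character (x ^ j) = ρ.character 1 → x ^ j = 1) ∧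
      orderOf x * d * Nat.card {h : G // ρ.character h = ρ.character 1} ∣ Nat.card G := by
  have key : ∃ (N : Subgroup G) (d : ℕ) (ρ : Representation ℂ G (Fin d → ℂ)),
      N ⊓ Subgroup.zpowers x = ⊥ ∧ ρ.IsIrreducible ∧
      (∀ h : G, ρ.character h = ρ.character 1 ↔ h ∈ N) ∧
      orderOf x * d * Nat.card N ∣ Nat.card G := by
    by_cases hpq : p = q
    · subst hpq
      have h1 : orderOf x = p ^ (a + b) * 1 := by rw [hx, pow_add, mul_one]
      have h2 := result_all hp squarefree_one (fun h => hp.one_lt.ne' (Nat.dvd_one.1 h)) x h1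
      rwa [← h1] at h2
    · rcases Nat.lt_or_ge b 2 with hb2 | hb2
      · have hsq : Squarefree (q ^ b) := by
          interval_cases b
          · simp
          · rw [pow_one]; exact hq.squarefree
        have hnd : ¬ p ∣ q ^ b := by
          intro h
          exact hpq ((Nat.prime_dvd_prime_iff_eq hp hq).1 (hp.dvd_of_dvd_pow h))
        have h2 := result_all hp hsq hnd x hx
        rwa [← hx] at h2
      · have hb3 : b = 2 := le_antisymm hb hb2
        subst hb3
        rcases Nat.eq_zero_or_pos a with ha | ha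
        · subst ha
          have h1 : orderOf x = q ^ 2 * 1 := by rw [hx, pow_zero, one_mul, mul_one]
          have h2 := result_all hq squarefree_one (fun h => hq.one_lt.ne' (Nat.dvd_one.1 h)) x h1
          rwa [← h1] at h2
        · obtain ⟨a', rfl⟩ : ∃ a', a = a' + 1 := ⟨a - 1, by omega⟩
          have h2 := result_pos2 hp hq hpq x hx
          rwa [← hx] at h2
  obtain ⟨N, d, ρ, hNx, hirr, hker, hdvd⟩ := key
  refine ⟨d, ρ, hirr, ?_, ?_⟩
  · intro j hj
    have h1 : x ^ j ∈ N ⊓ Subgroup.zpowers x := ⟨(hker _).1 hj, j, rfl⟩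
    rw [hNx] at h1
    exact Subgroup.mem_bot.1 h1
  · have h1 : Nat.card {h : G // ρ.character h = ρ.character 1} = Nat.card N :=
      Nat.card_congr (Equiv.subtypeEquivRight hker)
    rw [h1]
    exact hdvd

end Pool.Agent.Results.MP_213332_al.TwoPrimes
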